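import Pool.Agent.Q231.SG.Defs

namespace Q231.SG

open Finset

variable {V : Type} [Fintype V] {k : ℕ}

theorem collect_le (G : Game V k) (P : List V → V → V → ℝ) (i : Fin k) (H : V → ℝ)
    (hP : ∀ h v w, 0 ≤ P h v w) (h0 : ∀ v, 0 ≤ H v)
    (hT : ∀ v, G.kind v = Kind.term → (G.reward v i : ℝ) ≤ H v)
    (hS : ∀ h v, G.kind v ≠ Kind.term → ∑ w, P h v w * H w ≤ H v) :
    ∀ n h v, collect G P i n h v ≤ H v := by
  intro n
  induction n with
  | zero =>
    intro h v
    unfold collect
    split_ifs with hv
    · exact hT v hv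
    · exact h0 v
  | succ n ih =>
    intro h v
    unfold collect
    split_ifs with hv
    · exact hT v hv
    · refine le_trans ?_ (hS h v hv)
      exact Finset.sum_le_sum fun w _ => mul_le_mul_of_nonneg_left (ih _ _) (hP h v w)

theorem payoff_le (G : Game V k) (P : List V → V → V → ℝ) (i : Fin k) (H : V → ℝ)
    (hP : ∀ h v w, 0 ≤ P h v w) (h0 : ∀ v, 0 ≤ H v)
    (hT : ∀ v, G.kind v = Kind.term → (G.reward v i : ℝ) ≤ H v)
    (hS : ∀ h v, G.kind v ≠ Kind.term → ∑ w, P h v w * H w ≤ H v) :
    payoff G P i ≤ H G.init := by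
  unfold payoff
  exact ciSup_le fun n => collect_le G P i H hP h0 hT hS n _ _

theorem le_payoff (G : Game V k) (P : List V → V → V → ℝ) (i : Fin k)
    (hP : ∀ h v w, 0 ≤ P h v w)
    (hS : ∀ h v, G.kind v ≠ Kind.term → ∑ w, P h v w ≤ 1) (n : ℕ) :
    collect G P i n [] G.init ≤ payoff G P i := by
  unfold payoff
  refine le_ciSup (f := fun n => collect G P i n [] G.init) ?_ n
  refine ⟨1, ?_⟩
  rintro _ ⟨m, rfl⟩
  refine collect_le G P i (fun _ => 1) hP (fun _ => zero_le_one) ?_ ?_ m _ _
  · intro v _
    exact_mod_cast (G.reward_mem v i).2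
  · intro h v hv
    simpa using hS h v hv

/-- History independent transition probabilities. -/
theorem collect_hist (G : Game V k) (Q : V → V → ℝ) (i : Fin k) :
    ∀ n h h' v, collect G (fun _ => Q) i n h v = collect G (fun _ => Q) i n h' v := by
  intro n
  induction n with
  | zero => intro h h' v; rfl
  | succ n ih =>
    intro h h' v
    unfold collect
    split_ifs with hv
    · rfl
    · exact Finset.sum_congr rfl fun w _ => by rw [ih _ (v :: h')]

noncomputable def col (G : Game V k) (Q : V → V → ℝ) (i : Fin k) (n : ℕ) (v : V) : ℝ :=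
  collect G (fun _ => Q) i n [] v

theorem col_term (G : Game V k) (Q : V → V → ℝ) (i : Fin k) (n : ℕ) (v : V)
    (hv : G.kind v = Kind.term) : col G Q i n v = (G.reward v i : ℝ) := by
  unfold col
  cases n <;> simp [collect, hv]

theorem col_succ (G : Game V k) (Q : V → V → ℝ) (i : Fin k) (n : ℕ) (v : V)
    (hv : G.kind v ≠ Kind.term) :
    col G Q i (n + 1) v = ∑ w, Q v w * col G Q i n w := by
  unfold col
  rw [collect]
  simp only [hv, if_false]
  exact Finset.sum_congr rfl fun w _ => by rw [collect_hist G Q i n _ []]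

theorem step_nonneg (G : Game V k) (σ : V → V → ℝ) (hσ : IsStationary G σ) (v w : V) :
    0 ≤ step G σ v w := by
  unfold step
  cases hk : G.kind v with
  | player j => exact (hσ v j hk).1 w
  | stoch => simp only; exact_mod_cast G.prob_nonneg v w
  | term => exact le_rfl

theorem step_sum (G : Game V k) (σ : V → V → ℝ) (hσ : IsStationary G σ) (v : V)
    (hv : G.kind v ≠ Kind.term) : ∑ w, step G σ v w = 1 := by
  unfold step
  cases hk : G.kind v with
  | player j => exact (hσ v j hk).2.2
  | stoch =>
    have := G.prob_sum v hk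
    simp only
    exact_mod_cast this
  | term => exact absurd hk hv

theorem stepDev_nonneg (G : Game V k) (σ : V → V → ℝ) (hσ : IsStationary G σ) (i : Fin k)
    (τ : List V → V → V → ℝ) (hτ : IsStrategy G i τ) (h : List V) (v w : V) :
    0 ≤ stepDev G σ i τ h v w := by
  unfold stepDev
  cases hk : G.kind v with
  | player j =>
    simp only
    split_ifs with hj
    · subst hj; exact (hτ h v hk).1 w
    · exact (hσ v j hk).1 w
  | stoch => simp only; exact_mod_cast G.prob_nonneg v w
  | term => exact le_rfl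

theorem stepDev_sum (G : Game V k) (σ : V → V → ℝ) (hσ : IsStationary G σ) (i : Fin k)
    (τ : List V → V → V → ℝ) (hτ : IsStrategy G i τ) (h : List V) (v : V)
    (hv : G.kind v ≠ Kind.term) : ∑ w, stepDev G σ i τ h v w = 1 := by
  unfold stepDev
  cases hk : G.kind v with
  | player j =>
    simp only
    split_ifs with hj
    · subst hj; exact (hτ h v hk).2.2
    · exact (hσ v j hk).2.2
  | stoch =>
    have := G.prob_sum v hk
    simp only
    exact_mod_cast this
  | term => exact absurd hk hv

/-- Stationary deviation of player `i` to `τ`. -/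
noncomputable def dev (G : Game V k) (σ : V → V → ℝ) (i : Fin k) (τ : V → V → ℝ) (v w : V) : ℝ :=
  stepDev G σ i (fun _ => τ) [] v w

theorem stepDev_stat (G : Game V k) (σ : V → V → ℝ) (i : Fin k) (τ : V → V → ℝ) :
    stepDev G σ i (fun _ => τ) = fun _ => dev G σ i τ := by
  funext h v w
  unfold dev stepDev
  rfl

theorem nash_stat (G : Game V k) (ε : ℝ) (σ : V → V → ℝ) (hσ : IsStationary G σ)
    (hN : IsNash G ε σ) (i : Fin k)
    (τ : V → V → ℝ) (hτ : ∀ v, G.kind v = Kind.player i → IsDist G v (τ v)) (n : ℕ) :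
    col G (dev G σ i τ) i n G.init ≤ value G σ i + ε := by
  have hs : IsStrategy G i (fun _ => τ) := fun _ v hv => hτ v hv
  have h1 := hN i (fun _ => τ) hs
  have h2 := le_payoff G (stepDev G σ i (fun _ => τ)) i
    (fun h v w => stepDev_nonneg G σ hσ i _ hs h v w)
    (fun h v hv => (stepDev_sum G σ hσ i _ hs h v hv).le) n
  rw [stepDev_stat] at h1 h2
  exact le_trans h2 h1

theorem le_value (G : Game V k) (σ : V → V → ℝ) (hσ : IsStationary G σ) (i : Fin k) (n : ℕ) :
    col G (step G σ) i n G.init ≤ value G σ i :=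
  le_payoff G (fun _ => step G σ) i (fun _ v w => step_nonneg G σ hσ v w)
    (fun _ v hv => (step_sum G σ hσ v hv).le) n

end Q231.SG
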