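import Mathlib

/-!
Turn-based stochastic games with terminal rewards, stationary profiles, expected payoffs,
epsilon-Nash equilibria against arbitrary (history-dependent, randomised) deviations,
and the binary length of an instance.
-/

namespace Q231.SG

open Finset

/-- The kind of a vertex: owned by a player, stochastic, or terminal. -/
inductive Kind (k : ℕ)
  | player (i : Fin k)
  | stoch
  | term

/-- A turn-based stochastic game with `k` players on the finite vertex set `V`. -/
structure Game (V : Type) [Fintype V] (k : ℕ) where
  /-- the kind of each vertex -/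
  kind : V → Kind k
  /-- the directed edges -/
  edge : V → V → Prop
  /-- the rational distribution on the out-edges of a stochastic vertex -/
  prob : V → V → ℚ
  /-- the rational rewards of the terminal vertices -/
  reward : V → Fin k → ℚ
  /-- the initial vertex -/
  init : V
  edge_exists : ∀ v, kind v ≠ Kind.term → ∃ w, edge v w
  prob_nonneg : ∀ v w, 0 ≤ prob v w
  prob_edge : ∀ v w, ¬ edge v w → prob v w = 0
  prob_sum : ∀ v, kind v = Kind.stoch → ∑ w, prob v w = 1
  reward_mem : ∀ v i, 0 ≤ reward v i ∧ reward v i ≤ 1

variable {V : Type} [Fintype V] {k : ℕ}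

/-- `d` is a probability distribution on the out-neighbours of `v`. -/
def IsDist (G : Game V k) (v : V) (d : V → ℝ) : Prop :=
  (∀ w, 0 ≤ d w) ∧ (∀ w, ¬ G.edge v w → d w = 0) ∧ ∑ w, d w = 1

/-- A stationary profile: a distribution on the out-neighbours of every player vertex. -/
def IsStationary (G : Game V k) (σ : V → V → ℝ) : Prop :=
  ∀ v i, G.kind v = Kind.player i → IsDist G v (σ v)

/-- A strategy of player `i`, which may depend on the whole history (the list of the
vertices visited before the current one). -/
def IsStrategy (G : Game V k) (i : Fin k) (τ : List V → V → V → ℝ) : Prop :=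
  ∀ h v, G.kind v = Kind.player i → IsDist G v (τ h v)

/-- The transition probabilities under the stationary profile `σ`. -/
def step (G : Game V k) (σ : V → V → ℝ) (v w : V) : ℝ :=
  match G.kind v with
  | Kind.player _ => σ v w
  | Kind.stoch => (G.prob v w : ℝ)
  | Kind.term => 0

/-- The transition probabilities when player `i` plays `τ` and all others play `σ`. -/
def stepDev (G : Game V k) (σ : V → V → ℝ) (i : Fin k) (τ : List V → V → V → ℝ)
    (h : List V) (v w : V) : ℝ :=
  match G.kind v with
  | Kind.player j => if j = i then τ h v w else σ v w
  | Kind.stoch => (G.prob v w : ℝ)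
  | Kind.term => 0

open Classical in
/-- Expected reward of player `i` collected within `n` moves, from the vertex `v` with
history `h`, when the transition probabilities are `P`. -/
noncomputable def collect (G : Game V k) (P : List V → V → V → ℝ) (i : Fin k) :
    ℕ → List V → V → ℝ
  | 0, _, v => if G.kind v = Kind.term then (G.reward v i : ℝ) else 0
  | n + 1, h, v =>
      if G.kind v = Kind.term then (G.reward v i : ℝ)
      else ∑ w, P h v w * collect G P i n (v :: h) w

/-- Expected payoff of player `i`: the reward of the terminal vertex reached, `0` if none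
is reached (the supremum is the limit, since `collect` is monotone in `n`). -/
noncomputable def payoff (G : Game V k) (P : List V → V → V → ℝ) (i : Fin k) : ℝ :=
  ⨆ n : ℕ, collect G P i n [] G.init

/-- Expected payoff of player `i` under the stationary profile `σ`. -/
noncomputable def value (G : Game V k) (σ : V → V → ℝ) (i : Fin k) : ℝ :=
  payoff G (fun _ => step G σ) i

/-- `σ` is an `ε`-Nash equilibrium: no player gains more than `ε` by a unilateral
deviation to an arbitrary strategy. -/
def IsNash (G : Game V k) (ε : ℝ) (σ : V → V → ℝ) : Prop :=
  ∀ i τ, IsStrategy G i τ → payoff G (stepDev G σ i τ) i ≤ value G σ i + ε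

/-- `σ` satisfies the payoff constraints `x ≤ E(σ) ≤ y`. -/
def Satisfies (G : Game V k) (x y : Fin k → ℚ) (σ : V → V → ℝ) : Prop :=
  ∀ i, (x i : ℝ) ≤ value G σ i ∧ value G σ i ≤ (y i : ℝ)

/-- Every probability of the stationary profile `σ` is an integer multiple of `2 ^ (-L)`. -/
def FixedPoint (G : Game V k) (L : ℕ) (σ : V → V → ℝ) : Prop :=
  ∀ v i w, G.kind v = Kind.player i → ∃ z : ℤ, σ v w = (z : ℝ) / 2 ^ L

/-- Binary length of a rational number. -/
def bits (q : ℚ) : ℕ := Nat.size q.num.natAbs + Nat.size q.den + 1

/-- Total binary length of the instance: adjacency matrix, probabilities, rewards,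
the constraint vectors and `ε`. -/
def inputSize (G : Game V k) (x y : Fin k → ℚ) (ε : ℚ) : ℕ :=
  (∑ v, ∑ w, (1 + bits (G.prob v w))) + (∑ v, ∑ i, bits (G.reward v i)) +
    (∑ i, (bits (x i) + bits (y i))) + bits ε + Fintype.card V + k

end Q231.SG
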