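import Pool.Agent.Q231.SG.Inst

namespace Q231.SG

open Finset

variable {n : ℕ} {ρ : ℚ} {h0 : 0 ≤ ρ} {h1 : ρ ≤ 1}

theorem step_supp {V : Type} [Fintype V] {k : ℕ} (G : Game V k) (σ : V → V → ℝ)
    (hσ : IsStationary G σ) (v w : V) (h : ¬ G.edge v w) : step G σ v w = 0 := by
  unfold step
  cases hk : G.kind v with
  | player j => exact (hσ v j hk).2.1 w h
  | stoch => simp only; exact_mod_cast G.prob_edge v w h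
  | term => rfl

noncomputable def pp (ρ : ℚ) (h0 : 0 ≤ ρ) (h1 : ρ ≤ 1) (σ : Vx n → Vx n → ℝ) (i : Fin (n + 1)) : ℝ :=
  step (gm n ρ h0 h1) σ (Vx.u i) (Vx.w i)

noncomputable def qq (ρ : ℚ) (h0 : 0 ≤ ρ) (h1 : ρ ≤ 1) (σ : Vx n → Vx n → ℝ) (i : Fin (n + 1)) : ℝ :=
  step (gm n ρ h0 h1) σ (Vx.w i) (Vx.tY i)

theorem kind_u (i : Fin (n + 1)) : (gm n ρ h0 h1).kind (Vx.u i) ≠ Kind.term := by
  change kindV (Vx.u i) ≠ Kind.term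
  simp only [kindV]
  split_ifs <;> simp

theorem kind_w (i : Fin (n + 1)) : (gm n ρ h0 h1).kind (Vx.w i) ≠ Kind.term := by
  change kindV (Vx.w i) ≠ Kind.term
  simp only [kindV]
  split_ifs <;> simp

theorem kind_s (t : Fin 3) (i : Fin n) : (gm n ρ h0 h1).kind (Vx.s t i) ≠ Kind.term := by
  change kindV (Vx.s t i) ≠ Kind.term
  simp [kindV]

theorem kind_c (a : Fin 4) : (gm n ρ h0 h1).kind (Vx.c a) ≠ Kind.term := by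
  change kindV (Vx.c a : Vx n) ≠ Kind.term
  simp [kindV]

theorem sum_u_aux (σ : Vx n → Vx n → ℝ) (hσ : IsStationary (gm n ρ h0 h1) σ) (i : Fin (n + 1))
    (f : Vx n → ℝ) :
    ∑ x, step (gm n ρ h0 h1) σ (Vx.u i) x * f x =
      pp ρ h0 h1 σ i * f (Vx.w i) + step (gm n ρ h0 h1) σ (Vx.u i) (Vx.tN i) * f (Vx.tN i) := by
  refine Fintype.sum_eq_add (Vx.w i) (Vx.tN i) (by simp) ?_
  rintro x ⟨hx1, hx2⟩
  rw [step_supp _ _ hσ _ _ (by change ¬ edgeV (Vx.u i) x; simp [edgeV, hx1, hx2]), zero_mul]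

theorem sum_u (σ : Vx n → Vx n → ℝ) (hσ : IsStationary (gm n ρ h0 h1) σ) (i : Fin (n + 1))
    (f : Vx n → ℝ) :
    ∑ x, step (gm n ρ h0 h1) σ (Vx.u i) x * f x =
      pp ρ h0 h1 σ i * f (Vx.w i) + (1 - pp ρ h0 h1 σ i) * f (Vx.tN i) := by
  have h := sum_u_aux σ hσ i (fun _ => 1)
  simp only [mul_one] at h
  rw [step_sum _ _ hσ _ (kind_u i)] at h
  rw [sum_u_aux σ hσ i f, show step (gm n ρ h0 h1) σ (Vx.u i) (Vx.tN i) =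
    1 - pp ρ h0 h1 σ i by linarith]

theorem sum_w_aux (σ : Vx n → Vx n → ℝ) (hσ : IsStationary (gm n ρ h0 h1) σ) (i : Fin (n + 1))
    (f : Vx n → ℝ) :
    ∑ x, step (gm n ρ h0 h1) σ (Vx.w i) x * f x =
      qq ρ h0 h1 σ i * f (Vx.tY i) + step (gm n ρ h0 h1) σ (Vx.w i) (Vx.tZ i) * f (Vx.tZ i) := by
  refine Fintype.sum_eq_add (Vx.tY i) (Vx.tZ i) (by simp) ?_
  rintro x ⟨hx1, hx2⟩
  rw [step_supp _ _ hσ _ _ (by change ¬ edgeV (Vx.w i) x; simp [edgeV, hx1, hx2]), zero_mul]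

theorem sum_w (σ : Vx n → Vx n → ℝ) (hσ : IsStationary (gm n ρ h0 h1) σ) (i : Fin (n + 1))
    (f : Vx n → ℝ) :
    ∑ x, step (gm n ρ h0 h1) σ (Vx.w i) x * f x =
      qq ρ h0 h1 σ i * f (Vx.tY i) + (1 - qq ρ h0 h1 σ i) * f (Vx.tZ i) := by
  have h := sum_w_aux σ hσ i (fun _ => 1)
  simp only [mul_one] at h
  rw [step_sum _ _ hσ _ (kind_w i)] at h
  rw [sum_w_aux σ hσ i f, show step (gm n ρ h0 h1) σ (Vx.w i) (Vx.tZ i) =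
    1 - qq ρ h0 h1 σ i by linarith]

theorem step_s (σ : Vx n → Vx n → ℝ) (t : Fin 3) (i : Fin n) (x : Vx n) :
    step (gm n ρ h0 h1) σ (Vx.s t i) x = ((probV (Vx.s t i) x : ℚ) : ℝ) := rfl

theorem sum_s0 (σ : Vx n → Vx n → ℝ) (i : Fin n) (f : Vx n → ℝ) :
    ∑ x, step (gm n ρ h0 h1) σ (Vx.s 0 i) x * f x =
      1 / 2 * f (Vx.u i.castSucc) + 1 / 2 * f (Vx.u i.succ) := by
  simp only [step_s, probV, Rat.cast_add, apply_ite (Rat.cast : ℚ → ℝ)]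
  simp [add_mul, ite_mul, Finset.sum_add_distrib]

theorem sum_s1 (σ : Vx n → Vx n → ℝ) (i : Fin n) (f : Vx n → ℝ) :
    ∑ x, step (gm n ρ h0 h1) σ (Vx.s 1 i) x * f x =
      1 / 4 * f (Vx.u i.castSucc) + 1 / 4 * f (Vx.w i.succ) + 1 / 2 * f Vx.tD := by
  simp only [step_s, probV, Rat.cast_add, apply_ite (Rat.cast : ℚ → ℝ)]
  simp [add_mul, ite_mul, Finset.sum_add_distrib]

theorem sum_s2 (σ : Vx n → Vx n → ℝ) (i : Fin n) (f : Vx n → ℝ) :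
    ∑ x, step (gm n ρ h0 h1) σ (Vx.s 2 i) x * f x =
      1 / 3 * f (Vx.u i.castSucc) + 1 / 3 * f (Vx.u i.succ) + 1 / 3 * f (Vx.w i.succ) := by
  simp only [step_s, probV, Rat.cast_add, apply_ite (Rat.cast : ℚ → ℝ)]
  simp [add_mul, ite_mul, Finset.sum_add_distrib]

/-- the reward as a real number -/
noncomputable def rw' (ρ : ℚ) (j : Fin 5) (v : Vx n) : ℝ := ((rewardV ρ v j : ℚ) : ℝ)

noncomputable def Wv (ρ : ℚ) (h0 : 0 ≤ ρ) (h1 : ρ ≤ 1) (σ : Vx n → Vx n → ℝ) (j : Fin 5)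
    (i : Fin (n + 1)) : ℝ :=
  qq ρ h0 h1 σ i * rw' ρ j (Vx.tY i) + (1 - qq ρ h0 h1 σ i) * rw' ρ j (Vx.tZ i)

noncomputable def Uv (ρ : ℚ) (h0 : 0 ≤ ρ) (h1 : ρ ≤ 1) (σ : Vx n → Vx n → ℝ) (j : Fin 5)
    (i : Fin (n + 1)) : ℝ :=
  pp ρ h0 h1 σ i * Wv ρ h0 h1 σ j i + (1 - pp ρ h0 h1 σ i) * rw' ρ j (Vx.tN i)

noncomputable def Sv (ρ : ℚ) (h0 : 0 ≤ ρ) (h1 : ρ ≤ 1) (σ : Vx n → Vx n → ℝ) (j : Fin 5)
    (t : Fin 3) (i : Fin n) : ℝ :=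
  match t with
  | 0 => 1 / 2 * Uv ρ h0 h1 σ j i.castSucc + 1 / 2 * Uv ρ h0 h1 σ j i.succ
  | 1 => 1 / 4 * Uv ρ h0 h1 σ j i.castSucc + 1 / 4 * Wv ρ h0 h1 σ j i.succ +
      1 / 2 * rw' ρ j (Vx.tD : Vx n)
  | 2 => 1 / 3 * Uv ρ h0 h1 σ j i.castSucc + 1 / 3 * Uv ρ h0 h1 σ j i.succ +
      1 / 3 * Wv ρ h0 h1 σ j i.succ

section
variable (σ : Vx n → Vx n → ℝ) (hσ : IsStationary (gm n ρ h0 h1) σ) (Q : Vx n → Vx n → ℝ)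
  (hQ : ∀ v, (∀ a, v ≠ Vx.c a) → Q v = step (gm n ρ h0 h1) σ v) (j : Fin 5)
include hσ hQ

theorem col_w (k : ℕ) (i : Fin (n + 1)) :
    col (gm n ρ h0 h1) Q j (k + 1) (Vx.w i) = Wv ρ h0 h1 σ j i := by
  rw [col_succ _ _ _ _ _ (kind_w i), hQ _ (by simp), sum_w σ hσ, col_term _ _ _ _ _ rfl,
    col_term _ _ _ _ _ rfl]
  rfl

theorem col_u (k : ℕ) (i : Fin (n + 1)) :
    col (gm n ρ h0 h1) Q j (k + 2) (Vx.u i) = Uv ρ h0 h1 σ j i := by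
  rw [col_succ _ _ _ _ _ (kind_u i), hQ _ (by simp), sum_u σ hσ, col_w σ hσ Q hQ,
    col_term _ _ _ _ _ rfl]
  rfl

theorem col_s (k : ℕ) (t : Fin 3) (i : Fin n) :
    col (gm n ρ h0 h1) Q j (k + 3) (Vx.s t i) = Sv ρ h0 h1 σ j t i := by
  rw [col_succ _ _ _ _ _ (kind_s t i), hQ _ (by simp)]
  fin_cases t
  · change ∑ x, step (gm n ρ h0 h1) σ (Vx.s 0 i) x * _ = _
    rw [sum_s0, col_u σ hσ Q hQ, col_u σ hσ Q hQ]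
    rfl
  · change ∑ x, step (gm n ρ h0 h1) σ (Vx.s 1 i) x * _ = _
    rw [sum_s1, col_u σ hσ Q hQ, col_w σ hσ Q hQ, col_term _ _ _ _ _ rfl]
    rfl
  · change ∑ x, step (gm n ρ h0 h1) σ (Vx.s 2 i) x * _ = _
    rw [sum_s2, col_u σ hσ Q hQ, col_u σ hσ Q hQ, col_w σ hσ Q hQ]
    rfl

end

end Q231.SG
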