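import Pool.Agent.Q231.SG.Small

namespace Q231.SG

open Finset

variable {n : ℕ} {ρ : ℚ} {h0 : 0 ≤ ρ} {h1 : ρ ≤ 1}

def ex (i : ℕ) : ℕ := 2 ^ (i + 1) - 1

noncomputable def pr (i : ℕ) : ℝ := (1 / 2 : ℝ) ^ (ex i)

theorem ex_succ (i : ℕ) : ex (i + 1) = 2 * ex i + 1 := by
  unfold ex
  have h1 : 2 ^ (i + 1 + 1) = 2 * 2 ^ (i + 1) := by rw [pow_succ]; ring
  have h2 : 1 ≤ 2 ^ (i + 1) := Nat.one_le_two_pow
  omega

theorem pr_succ (i : ℕ) : pr (i + 1) = pr i * pr i / 2 := by
  unfold pr
  rw [ex_succ, pow_succ, two_mul, pow_add]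
  ring

theorem pr_pos (i : ℕ) : 0 < pr i := by unfold pr; positivity

theorem pr_le (i : ℕ) : pr i ≤ 1 := by
  unfold pr
  exact pow_le_one₀ (by norm_num) (by norm_num)

/-- the profile -/
noncomputable def sig : Vx n → Vx n → ℝ
  | Vx.c a, x => if x = nxt a then 1 else 0
  | Vx.u i, x => (if x = Vx.w i then pr i.val else 0) + (if x = Vx.tN i then 1 - pr i.val else 0)
  | Vx.w i, x => (if x = Vx.tY i then pr i.val else 0) + (if x = Vx.tZ i then 1 - pr i.val else 0)
  | _, _ => 0

theorem sig_stat : IsStationary (gm n ρ h0 h1) sig := by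
  intro v j hv
  change kindV v = _ at hv
  cases v with
  | c a =>
    refine ⟨fun w => ?_, fun w hw => ?_, ?_⟩
    · simp only [sig]; split_ifs <;> norm_num
    · simp only [sig]
      rw [if_neg]
      rintro rfl
      exact hw (Or.inl rfl)
    · simp [sig]
  | u i =>
    refine ⟨fun w => ?_, fun w hw => ?_, ?_⟩
    · simp only [sig]
      have := (pr_pos i.val).le
      have := pr_le i.val
      split_ifs <;> linarith
    · simp only [sig]
      rw [if_neg, if_neg, add_zero]
      · rintro rfl; exact hw (Or.inr rfl)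
      · rintro rfl; exact hw (Or.inl rfl)
    · simp [sig, Finset.sum_add_distrib]
  | w i =>
    refine ⟨fun w => ?_, fun w hw => ?_, ?_⟩
    · simp only [sig]
      have := (pr_pos i.val).le
      have := pr_le i.val
      split_ifs <;> linarith
    · simp only [sig]
      rw [if_neg, if_neg, add_zero]
      · rintro rfl; exact hw (Or.inr rfl)
      · rintro rfl; exact hw (Or.inl rfl)
    · simp [sig, Finset.sum_add_distrib]
  | _ => simp [kindV] at hv

theorem pp_sig (i : Fin (n + 1)) : pp ρ h0 h1 sig i = pr i.val := by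
  by_cases hi : i = 0
  · subst hi
    rw [pp_zero]
    simp [pr, ex]
  · have hk : (gm n ρ h0 h1).kind (Vx.u i) = Kind.player 0 := by
      change kindV (Vx.u i) = Kind.player 0
      simp [kindV, hi]
    unfold pp step
    rw [hk]
    simp [sig]

theorem qq_sig (i : Fin (n + 1)) : qq ρ h0 h1 sig i = pr i.val := by
  by_cases hi : i = 0
  · subst hi
    rw [qq_zero]
    simp [pr, ex]
  · have hk : (gm n ρ h0 h1).kind (Vx.w i) = Kind.player 0 := by
      change kindV (Vx.w i) = Kind.player 0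
      simp [kindV, hi]
    unfold qq step
    rw [hk]
    simp [sig]

theorem sv_le (a : Fin 4) (t : Fin 3) (i : Fin n) (ho : own a t i) :
    Sv ρ h0 h1 sig a.succ t i ≤ 1 / 2 := by
  have hp := pr_pos i.val
  have hp1 := pr_le i.val
  have hm0 : 0 < pr i.val * pr i.val := mul_pos hp hp
  have hm1 : pr i.val * pr i.val ≤ 1 := by nlinarith
  have hs := pr_succ i.val
  rcases ho with ⟨ha, ht⟩ | ⟨ha, rfl⟩
  · rcases Nat.mod_two_eq_zero_or_one i.val with h | h
    · have h' : (i.val + 1) % 2 = 1 := by omega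
      have ha' : a = 0 := Fin.ext (by rw [ha, h]; rfl)
      subst ha'
      have e1 : (0 : Fin 4).succ = (1 : Fin 5) := rfl
      rw [e1]
      fin_cases t
      · simp [Sv, Uv, Wv, rw', rewardV, rL, Fin.val_castSucc, Fin.val_succ, h, h', pp_sig, qq_sig]
        rw [hs]; nlinarith
      · simp [Sv, Uv, Wv, rw', rewardV, rL, Fin.val_castSucc, Fin.val_succ, h, h', pp_sig, qq_sig]
        rw [hs]; nlinarith
      · exact absurd rfl ht
    · have h' : (i.val + 1) % 2 = 0 := by omega
      have ha' : a = 1 := Fin.ext (by rw [ha, h]; rfl)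
      subst ha'
      have e1 : (1 : Fin 4).succ = (2 : Fin 5) := rfl
      rw [e1]
      fin_cases t
      · simp [Sv, Uv, Wv, rw', rewardV, rL, Fin.val_castSucc, Fin.val_succ, h, h', pp_sig, qq_sig]
        rw [hs]; nlinarith
      · simp [Sv, Uv, Wv, rw', rewardV, rL, Fin.val_castSucc, Fin.val_succ, h, h', pp_sig, qq_sig]
        rw [hs]; nlinarith
      · exact absurd rfl ht
  · rcases Nat.mod_two_eq_zero_or_one i.val with h | h
    · have h' : (i.val + 1) % 2 = 1 := by omega
      have ha' : a = 2 := Fin.ext (by rw [ha, h]; rfl)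
      subst ha'
      have e1 : (2 : Fin 4).succ = (3 : Fin 5) := rfl
      rw [e1]
      simp [Sv, Uv, Wv, rw', rewardV, rU, Fin.val_castSucc, Fin.val_succ, h, h', pp_sig, qq_sig]
      rw [hs]; nlinarith
    · have h' : (i.val + 1) % 2 = 0 := by omega
      have ha' : a = 3 := Fin.ext (by rw [ha, h]; rfl)
      subst ha'
      have e1 : (3 : Fin 4).succ = (4 : Fin 5) := rfl
      rw [e1]
      simp [Sv, Uv, Wv, rw', rewardV, rU, Fin.val_castSucc, Fin.val_succ, h, h', pp_sig, qq_sig]
      rw [hs]; nlinarith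

theorem value_ge (j : Fin 5) : rw' ρ j (Vx.tE : Vx n) ≤ value (gm n ρ h0 h1) sig j := by
  have h := le_value (gm n ρ h0 h1) sig sig_stat j 4
  have hb : ∀ b : Fin 4, ∀ k, col (gm n ρ h0 h1) (step (gm n ρ h0 h1) sig) j (k + 1) (Vx.c b) =
      col (gm n ρ h0 h1) (step (gm n ρ h0 h1) sig) j k (nxt b) := by
    intro b k
    rw [col_succ _ _ _ _ _ (kind_c b)]
    exact sum_c (ρ := ρ) (h0 := h0) (h1 := h1) sig sig_stat b (by simp [sig]) _
  change col _ _ _ _ (Vx.c 0) ≤ _ at h
  rw [(hb 0 3).trans ((hb 1 2).trans ((hb 2 1).trans (hb 3 0)))] at h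
  change col _ _ _ _ Vx.tE ≤ _ at h
  rw [col_term _ _ _ _ _ rfl] at h
  exact h

theorem payoff_le_one {V : Type} [Fintype V] {k : ℕ} (G : Game V k) (P : List V → V → V → ℝ)
    (i : Fin k) (hP : ∀ h v w, 0 ≤ P h v w)
    (hS : ∀ h v, G.kind v ≠ Kind.term → ∑ w, P h v w = 1) : payoff G P i ≤ 1 :=
  payoff_le G P i (fun _ => 1) hP (fun _ => zero_le_one)
    (fun v _ => by exact_mod_cast (G.reward_mem v i).2)
    (fun h v hv => by simpa using (hS h v hv).le)

noncomputable def HC (ρ : ℚ) (h0 : 0 ≤ ρ) (h1 : ρ ≤ 1) (j : Fin 5) : Vx n → ℝ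
  | Vx.c _ => 1 / 2
  | Vx.s t i => Sv ρ h0 h1 sig j t i
  | Vx.u i => Uv ρ h0 h1 sig j i
  | Vx.w i => Wv ρ h0 h1 sig j i
  | v => rw' ρ j v

theorem rw'_nonneg (hρ0 : 0 ≤ ρ) (hρ1 : ρ ≤ 1) (j : Fin 5) (v : Vx n) : 0 ≤ rw' ρ j v := by
  have := ((gm n ρ hρ0 hρ1).reward_mem v j).1
  unfold rw'
  exact_mod_cast this

theorem Wv_nonneg (j : Fin 5) (i : Fin (n + 1)) : 0 ≤ Wv ρ h0 h1 sig j i := by
  unfold Wv
  have h2 := qq_mem (ρ := ρ) (h0 := h0) (h1 := h1) sig sig_stat i
  have h3 := rw'_nonneg h0 h1 j (Vx.tY i)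
  have h4 := rw'_nonneg h0 h1 j (Vx.tZ i)
  have h5 := mul_nonneg h2.1 h3
  have h6 := mul_nonneg (sub_nonneg.2 h2.2) h4
  linarith

theorem Uv_nonneg (j : Fin 5) (i : Fin (n + 1)) : 0 ≤ Uv ρ h0 h1 sig j i := by
  unfold Uv
  have h2 := pp_mem (ρ := ρ) (h0 := h0) (h1 := h1) sig sig_stat i
  have h3 := Wv_nonneg (h0 := h0) (h1 := h1) j i
  have h4 := rw'_nonneg h0 h1 j (Vx.tN i)
  have h5 := mul_nonneg h2.1 h3
  have h6 := mul_nonneg (sub_nonneg.2 h2.2) h4
  linarith

theorem HC_nonneg (j : Fin 5) (v : Vx n) : 0 ≤ HC ρ h0 h1 j v := by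
  cases v with
  | c a => simp only [HC]; norm_num
  | s t i =>
    simp only [HC]
    have hD := rw'_nonneg h0 h1 j (Vx.tD : Vx n)
    have ha := Uv_nonneg (h0 := h0) (h1 := h1) j i.castSucc
    have hb := Uv_nonneg (h0 := h0) (h1 := h1) j i.succ
    have hc := Wv_nonneg (h0 := h0) (h1 := h1) j i.succ
    fin_cases t <;> simp only [Sv] <;> linarith
  | u i => exact Uv_nonneg j i
  | w i => exact Wv_nonneg j i
  | tN i => exact rw'_nonneg h0 h1 j _
  | tZ i => exact rw'_nonneg h0 h1 j _
  | tY i => exact rw'_nonneg h0 h1 j _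
  | tD => exact rw'_nonneg h0 h1 j _
  | tE => exact rw'_nonneg h0 h1 j _

theorem sig_nash (ε : ℝ) (hε0 : 0 ≤ ε) (hε : (ρ : ℝ) + ε = 1 / 2) :
    IsNash (gm n ρ h0 h1) ε sig := by
  intro j τ hτ
  have hnn := fun h v w => stepDev_nonneg (gm n ρ h0 h1) sig sig_stat j τ hτ h v w
  have hss := fun h v hv => stepDev_sum (gm n ρ h0 h1) sig sig_stat j τ hτ h v hv
  have hvg := value_ge (n := n) (ρ := ρ) (h0 := h0) (h1 := h1) j
  by_cases hj : j = 0
  · subst hj
    have := payoff_le_one (gm n ρ h0 h1) _ 0 hnn hss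
    have h2 : rw' ρ 0 (Vx.tE : Vx n) = 1 := by simp [rw', rewardV, r0]
    rw [h2] at hvg
    linarith
  · obtain ⟨a, rfl⟩ := Fin.exists_succ_eq.2 hj
    have h2 : rw' ρ a.succ (Vx.tE : Vx n) = ρ := by
      fin_cases a <;> simp [rw', rewardV, rL, rU]
    rw [h2] at hvg
    have key := payoff_le_c sig sig_stat (stepDev (gm n ρ h0 h1) sig a.succ τ) a.succ
      (HC ρ h0 h1 a.succ) hnn
      (by
        intro h v hv
        funext w
        unfold stepDev step
        cases hk : (gm n ρ h0 h1).kind v with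
        | player j =>
          have hj : j ≠ a.succ := by
            change kindV v = _ at hk
            cases v with
            | c b => exact absurd rfl (hv b)
            | u i =>
              simp only [kindV] at hk
              split_ifs at hk
              rw [← Kind.player.inj hk]
              exact (Fin.succ_ne_zero a).symm
            | w i =>
              simp only [kindV] at hk
              split_ifs at hk
              rw [← Kind.player.inj hk]
              exact (Fin.succ_ne_zero a).symm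
            | _ => simp [kindV] at hk
          simp [hj]
        | stoch => rfl
        | term => rfl)
      (HC_nonneg a.succ)
      (by
        intro v hv
        cases v with
        | c b => exact absurd hv (kind_c b)
        | s t i => exact absurd hv (kind_s t i)
        | u i => exact absurd hv (kind_u i)
        | w i => exact absurd hv (kind_w i)
        | _ => exact le_rfl)
      (by
        intro h b
        have hE : HC ρ h0 h1 a.succ (Vx.tE : Vx n) ≤ 1 / 2 := by
          change rw' ρ a.succ (Vx.tE : Vx n) ≤ 1 / 2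
          rw [h2]; linarith
        have hN : HC ρ h0 h1 a.succ (nxt b : Vx n) ≤ 1 / 2 := by
          fin_cases b
          · exact le_rfl
          · exact le_rfl
          · exact le_rfl
          · exact hE
        by_cases hba : b = a
        · subst hba
          have hd := hτ h (Vx.c b) rfl
          have he : ∀ w, stepDev (gm n ρ h0 h1) sig b.succ τ h (Vx.c b) w = τ h (Vx.c b) w := by
            intro w
            change (if b.succ = b.succ then _ else _) = _
            simp
          simp only [he]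
          calc ∑ w, τ h (Vx.c b) w * HC ρ h0 h1 b.succ w
              ≤ ∑ w, τ h (Vx.c b) w * (1 / 2) := by
                refine Finset.sum_le_sum fun w _ => ?_
                by_cases hw : (gm n ρ h0 h1).edge (Vx.c b) w
                · refine mul_le_mul_of_nonneg_left ?_ (hd.1 w)
                  rcases hw with rfl | ⟨t, i, rfl, ho⟩
                  · exact hN
                  · exact sv_le b t i ho
                · rw [hd.2.1 w hw, zero_mul, zero_mul]
            _ = 1 / 2 := by rw [← Finset.sum_mul, hd.2.2, one_mul]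
            _ ≤ HC ρ h0 h1 b.succ (Vx.c b) := le_rfl
        · have he : ∀ w, stepDev (gm n ρ h0 h1) sig a.succ τ h (Vx.c b) w = sig (Vx.c b) w := by
            intro w
            change (if b.succ = a.succ then _ else _) = _
            rw [if_neg (fun h => hba (Fin.succ_injective _ h))]
          simp only [he]
          rw [sum_c (ρ := ρ) (h0 := h0) (h1 := h1) sig sig_stat b (by simp [sig])]
          exact hN)
      (fun i => le_rfl) (fun i => le_rfl) (fun i => le_rfl) (fun i => le_rfl) (fun i => le_rfl)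
    have h3 : HC ρ h0 h1 a.succ (Vx.c 0 : Vx n) = 1 / 2 := rfl
    rw [h3] at key
    linarith

theorem sig_fixed (n : ℕ) {ρ : ℚ} {h0 : 0 ≤ ρ} {h1 : ρ ≤ 1} :
    FixedPoint (gm n ρ h0 h1) (ex n) sig := by
  have hpr : ∀ i : Fin (n + 1), ∃ z : ℤ, pr i.val = (z : ℝ) / 2 ^ (ex n) := by
    intro i
    have hle : ex i.val ≤ ex n := by
      unfold ex
      have : 2 ^ (i.val + 1) ≤ 2 ^ (n + 1) := Nat.pow_le_pow_right (by norm_num) (by omega)
      omega
    refine ⟨2 ^ (ex n - ex i.val), ?_⟩
    unfold pr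
    rw [eq_div_iff (by positivity)]
    push_cast
    rw [one_div_pow, one_div, inv_mul_eq_iff_eq_mul₀ (by positivity), ← pow_add]
    congr 1
    omega
  have h1' : ∃ z : ℤ, (1 : ℝ) = (z : ℝ) / 2 ^ (ex n) := ⟨2 ^ ex n, by push_cast; rw [div_self (by positivity)]⟩
  have h0' : ∃ z : ℤ, (0 : ℝ) = (z : ℝ) / 2 ^ (ex n) := ⟨0, by simp⟩
  have hadd : ∀ x y : ℝ, (∃ z : ℤ, x = (z : ℝ) / 2 ^ (ex n)) → (∃ z : ℤ, y = (z : ℝ) / 2 ^ (ex n)) →
      ∃ z : ℤ, x + y = (z : ℝ) / 2 ^ (ex n) := by
    rintro x y ⟨a, rfl⟩ ⟨b, rfl⟩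
    exact ⟨a + b, by push_cast; ring⟩
  have hsub : ∀ x y : ℝ, (∃ z : ℤ, x = (z : ℝ) / 2 ^ (ex n)) → (∃ z : ℤ, y = (z : ℝ) / 2 ^ (ex n)) →
      ∃ z : ℤ, x - y = (z : ℝ) / 2 ^ (ex n) := by
    rintro x y ⟨a, rfl⟩ ⟨b, rfl⟩
    exact ⟨a - b, by push_cast; ring⟩
  intro v j w hv
  cases v with
  | c a => simp only [sig]; split_ifs; exacts [h1', h0']
  | u i =>
    simp only [sig]
    refine hadd _ _ ?_ ?_
    · split_ifs; exacts [hpr i, h0']
    · split_ifs; exacts [hsub _ _ h1' (hpr i), h0']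
  | w i =>
    simp only [sig]
    refine hadd _ _ ?_ ?_
    · split_ifs; exacts [hpr i, h0']
    · split_ifs; exacts [hsub _ _ h1' (hpr i), h0']
  | _ => exact h0'

/-- lower payoff constraints -/
def xs (i : Fin 5) : ℚ := if i = 0 then 1 else 0

/-- upper payoff constraints -/
def ys (_ : Fin 5) : ℚ := 1

theorem sig_sat : Satisfies (gm n ρ h0 h1) xs ys sig := by
  intro j
  have hge := value_ge (n := n) (ρ := ρ) (h0 := h0) (h1 := h1) j
  have hle : value (gm n ρ h0 h1) sig j ≤ 1 :=
    payoff_le_one (gm n ρ h0 h1) _ j (fun _ v w => step_nonneg _ _ sig_stat _ _)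
      (fun _ v hv => step_sum _ _ sig_stat _ hv)
  refine ⟨?_, by simpa [ys] using hle⟩
  by_cases hj : j = 0
  · subst hj
    have h2 : rw' ρ 0 (Vx.tE : Vx n) = 1 := by simp [rw', rewardV, r0]
    rw [h2] at hge
    simpa [xs] using hge
  · have := rw'_nonneg h0 h1 j (Vx.tE : Vx n)
    simp only [xs, hj, if_false]
    push_cast
    linarith

end Q231.SG
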