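import Pool.Agent.Q231.SG.Basic

namespace Q231.SG

open Finset

/-- Vertices of the game. -/
inductive Vx (n : ℕ)
  | c (a : Fin 4)
  | s (t : Fin 3) (i : Fin n)
  | u (i : Fin (n + 1))
  | w (i : Fin (n + 1))
  | tN (i : Fin (n + 1))
  | tZ (i : Fin (n + 1))
  | tY (i : Fin (n + 1))
  | tD
  | tE
deriving DecidableEq, Fintype

variable {n : ℕ}

/-- The vertex after the decision vertex `c a`. -/
def nxt (a : Fin 4) : Vx n :=
  match a with
  | 0 => Vx.c 1
  | 1 => Vx.c 2
  | 2 => Vx.c 3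
  | 3 => Vx.tE

/-- The test `s t i` can be chosen at `c a`. -/
def own (a : Fin 4) (t : Fin 3) (i : Fin n) : Prop :=
  (a.val = i.val % 2 ∧ t ≠ 2) ∨ (a.val = 2 + i.val % 2 ∧ t = 2)

def edgeV : Vx n → Vx n → Prop
  | Vx.c a, x => x = nxt a ∨ ∃ t i, x = Vx.s t i ∧ own a t i
  | Vx.s t i, x => x = Vx.u i.castSucc ∨ (x = Vx.u i.succ ∧ t ≠ 1) ∨ (x = Vx.w i.succ ∧ t ≠ 0) ∨
      (x = Vx.tD ∧ t = 1)
  | Vx.u i, x => x = Vx.w i ∨ x = Vx.tN i
  | Vx.w i, x => x = Vx.tY i ∨ x = Vx.tZ i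
  | _, _ => False

def probV : Vx n → Vx n → ℚ
  | Vx.s t i, x =>
    match t with
    | 0 => (if x = Vx.u i.castSucc then 1 / 2 else 0) + (if x = Vx.u i.succ then 1 / 2 else 0)
    | 1 => (if x = Vx.u i.castSucc then 1 / 4 else 0) + (if x = Vx.w i.succ then 1 / 4 else 0) +
        (if x = Vx.tD then 1 / 2 else 0)
    | 2 => (if x = Vx.u i.castSucc then 1 / 3 else 0) + (if x = Vx.u i.succ then 1 / 3 else 0) +
        (if x = Vx.w i.succ then 1 / 3 else 0)
  | Vx.u i, x => (if x = Vx.w i then 1 / 2 else 0) + (if x = Vx.tN i then 1 / 2 else 0)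
  | Vx.w i, x => (if x = Vx.tY i then 1 / 2 else 0) + (if x = Vx.tZ i then 1 / 2 else 0)
  | _, _ => 0

def kindV : Vx n → Kind 5
  | Vx.c a => Kind.player a.succ
  | Vx.s _ _ => Kind.stoch
  | Vx.u i => if i = 0 then Kind.stoch else Kind.player 0
  | Vx.w i => if i = 0 then Kind.stoch else Kind.player 0
  | _ => Kind.term

/-- Rewards of players 1 and 2. -/
def rL (ρ : ℚ) (c : ℕ) : Vx n → ℚ
  | Vx.tE => ρ
  | Vx.tD => 3 / 4
  | Vx.tY i => if i.val % 2 = c then 1 / 4 else 0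
  | Vx.tZ i => if i.val % 2 = c then 0 else 1 / 2
  | Vx.tN i => if i.val % 2 = c then 0 else 1
  | _ => 0

/-- Rewards of players 3 and 4. -/
def rU (ρ : ℚ) (c : ℕ) : Vx n → ℚ
  | Vx.tE => ρ
  | Vx.tD => 0
  | Vx.tY i => if i.val % 2 = c then 0 else 1
  | Vx.tZ i => if i.val % 2 = c then 1 else 1 / 2
  | Vx.tN i => if i.val % 2 = c then 1 else 0
  | _ => 0

/-- Reward of player 0. -/
def r0 : Vx n → ℚ
  | Vx.tE => 1
  | _ => 0

def rewardV (ρ : ℚ) (v : Vx n) (i : Fin 5) : ℚ :=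
  match i with
  | 0 => r0 v
  | 1 => rL ρ 0 v
  | 2 => rL ρ 1 v
  | 3 => rU ρ 0 v
  | 4 => rU ρ 1 v

theorem rL_mem (ρ : ℚ) (h0 : 0 ≤ ρ) (h1 : ρ ≤ 1) (c : ℕ) (v : Vx n) :
    0 ≤ rL ρ c v ∧ rL ρ c v ≤ 1 := by
  cases v <;> simp only [rL] <;> (try split_ifs) <;> constructor <;> first | assumption | norm_num

theorem rU_mem (ρ : ℚ) (h0 : 0 ≤ ρ) (h1 : ρ ≤ 1) (c : ℕ) (v : Vx n) :
    0 ≤ rU ρ c v ∧ rU ρ c v ≤ 1 := by
  cases v <;> simp only [rU] <;> (try split_ifs) <;> constructor <;> first | assumption | norm_num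

/-- The game. -/
def gm (n : ℕ) (ρ : ℚ) (h0 : 0 ≤ ρ) (h1 : ρ ≤ 1) : Game (Vx n) 5 where
  kind := kindV
  edge := edgeV
  prob := probV
  reward := rewardV ρ
  init := Vx.c 0
  edge_exists := by
    intro v hv
    cases v with
    | c a => exact ⟨nxt a, Or.inl rfl⟩
    | s t i => exact ⟨Vx.u i.castSucc, Or.inl rfl⟩
    | u i => exact ⟨Vx.w i, Or.inl rfl⟩
    | w i => exact ⟨Vx.tY i, Or.inl rfl⟩
    | tN i => exact absurd rfl hv
    | tZ i => exact absurd rfl hv
    | tY i => exact absurd rfl hv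
    | tD => exact absurd rfl hv
    | tE => exact absurd rfl hv
  prob_nonneg := by
    intro v x
    cases v with
    | s t i => fin_cases t <;> simp only [probV] <;> split_ifs <;> norm_num
    | u i => simp only [probV]; split_ifs <;> norm_num
    | w i => simp only [probV]; split_ifs <;> norm_num
    | _ => simp [probV]
  prob_edge := by
    intro v x
    cases v with
    | s t i => fin_cases t <;> simp [probV, edgeV] <;> intros <;> simp_all
    | u i => simp [probV, edgeV]; intros; simp_all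
    | w i => simp [probV, edgeV]; intros; simp_all
    | _ => simp [probV]
  prob_sum := by
    intro v hv
    cases v with
    | c a => simp [kindV] at hv
    | s t i =>
      fin_cases t <;> simp only [probV, Finset.sum_add_distrib] <;> simp <;> norm_num
    | u i => simp only [probV, Finset.sum_add_distrib]; simp; norm_num
    | w i => simp only [probV, Finset.sum_add_distrib]; simp; norm_num
    | tN i => simp [kindV] at hv
    | tZ i => simp [kindV] at hv
    | tY i => simp [kindV] at hv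
    | tD => simp [kindV] at hv
    | tE => simp [kindV] at hv
  reward_mem := by
    intro v i
    fin_cases i
    · cases v <;> simp [rewardV, r0]
    · exact rL_mem ρ h0 h1 0 v
    · exact rL_mem ρ h0 h1 1 v
    · exact rU_mem ρ h0 h1 0 v
    · exact rU_mem ρ h0 h1 1 v

end Q231.SG
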