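import Pool.Agent.Q231.SG.Eval

namespace Q231.SG

open Finset

variable {n : ℕ} {ρ : ℚ} {h0 : 0 ≤ ρ} {h1 : ρ ≤ 1}

/-- Superharmonic bound adapted to the game: away from the vertices `c b` the transition
probabilities are those of the stationary profile `σ`. -/
theorem payoff_le_c (σ : Vx n → Vx n → ℝ) (hσ : IsStationary (gm n ρ h0 h1) σ)
    (P : List (Vx n) → Vx n → Vx n → ℝ) (j : Fin 5) (H : Vx n → ℝ)
    (hP : ∀ h v w, 0 ≤ P h v w)
    (hPs : ∀ h v, (∀ a, v ≠ Vx.c a) → P h v = step (gm n ρ h0 h1) σ v)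
    (hH : ∀ v, 0 ≤ H v)
    (hT : ∀ v, (gm n ρ h0 h1).kind v = Kind.term → rw' ρ j v ≤ H v)
    (hc : ∀ h b, ∑ w, P h (Vx.c b) w * H w ≤ H (Vx.c b))
    (hu : ∀ i, pp ρ h0 h1 σ i * H (Vx.w i) + (1 - pp ρ h0 h1 σ i) * H (Vx.tN i) ≤ H (Vx.u i))
    (hw : ∀ i, qq ρ h0 h1 σ i * H (Vx.tY i) + (1 - qq ρ h0 h1 σ i) * H (Vx.tZ i) ≤ H (Vx.w i))
    (hs0 : ∀ i : Fin n, 1 / 2 * H (Vx.u i.castSucc) + 1 / 2 * H (Vx.u i.succ) ≤ H (Vx.s 0 i))
    (hs1 : ∀ i : Fin n, 1 / 4 * H (Vx.u i.castSucc) + 1 / 4 * H (Vx.w i.succ) + 1 / 2 * H Vx.tD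
      ≤ H (Vx.s 1 i))
    (hs2 : ∀ i : Fin n, 1 / 3 * H (Vx.u i.castSucc) + 1 / 3 * H (Vx.u i.succ) +
      1 / 3 * H (Vx.w i.succ) ≤ H (Vx.s 2 i)) :
    payoff (gm n ρ h0 h1) P j ≤ H (Vx.c 0) := by
  refine payoff_le (gm n ρ h0 h1) P j H hP hH (fun v hv => hT v hv) ?_
  intro h v hv
  cases v with
  | c b => exact hc h b
  | s t i =>
    rw [hPs _ _ (by simp)]
    fin_cases t
    · change ∑ x, step (gm n ρ h0 h1) σ (Vx.s 0 i) x * _ ≤ _
      rw [sum_s0]; exact hs0 i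
    · change ∑ x, step (gm n ρ h0 h1) σ (Vx.s 1 i) x * _ ≤ _
      rw [sum_s1]; exact hs1 i
    · change ∑ x, step (gm n ρ h0 h1) σ (Vx.s 2 i) x * _ ≤ _
      rw [sum_s2]; exact hs2 i
  | u i => rw [hPs _ _ (by simp), sum_u σ hσ]; exact hu i
  | w i => rw [hPs _ _ (by simp), sum_w σ hσ]; exact hw i
  | tN i => exact absurd rfl hv
  | tZ i => exact absurd rfl hv
  | tY i => exact absurd rfl hv
  | tD => exact absurd rfl hv
  | tE => exact absurd rfl hv

theorem pp_mem (σ : Vx n → Vx n → ℝ) (hσ : IsStationary (gm n ρ h0 h1) σ) (i : Fin (n + 1)) :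
    0 ≤ pp ρ h0 h1 σ i ∧ pp ρ h0 h1 σ i ≤ 1 := by
  refine ⟨step_nonneg _ _ hσ _ _, ?_⟩
  have h := step_sum _ _ hσ _ (kind_u (ρ := ρ) (h0 := h0) (h1 := h1) i)
  rw [← h]
  exact Finset.single_le_sum (f := fun x => step (gm n ρ h0 h1) σ (Vx.u i) x)
    (fun x _ => step_nonneg _ _ hσ _ _) (Finset.mem_univ _)

theorem qq_mem (σ : Vx n → Vx n → ℝ) (hσ : IsStationary (gm n ρ h0 h1) σ) (i : Fin (n + 1)) :
    0 ≤ qq ρ h0 h1 σ i ∧ qq ρ h0 h1 σ i ≤ 1 := by
  refine ⟨step_nonneg _ _ hσ _ _, ?_⟩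
  have h := step_sum _ _ hσ _ (kind_w (ρ := ρ) (h0 := h0) (h1 := h1) i)
  rw [← h]
  exact Finset.single_le_sum (f := fun x => step (gm n ρ h0 h1) σ (Vx.w i) x)
    (fun x _ => step_nonneg _ _ hσ _ _) (Finset.mem_univ _)

theorem c_mem (σ : Vx n → Vx n → ℝ) (hσ : IsStationary (gm n ρ h0 h1) σ) (a : Fin 4) (x : Vx n) :
    0 ≤ σ (Vx.c a) x ∧ σ (Vx.c a) x ≤ 1 := by
  have hd := hσ (Vx.c a) a.succ rfl
  refine ⟨hd.1 x, ?_⟩
  rw [← hd.2.2]
  exact Finset.single_le_sum (f := fun x => σ (Vx.c a) x) (fun x _ => hd.1 x) (Finset.mem_univ _)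

def HA (a : Fin 4) (S : ℝ) : Vx n → ℝ
  | Vx.c b => if b.val ≤ a.val then S else 1
  | Vx.tE => 1
  | _ => 0

theorem nxt_prob (σ : Vx n → Vx n → ℝ) (hσ : IsStationary (gm n ρ h0 h1) σ)
    (hv : 1 ≤ value (gm n ρ h0 h1) σ 0) (a : Fin 4) : σ (Vx.c a) (nxt a) = 1 := by
  refine le_antisymm (c_mem σ hσ a _).2 (hv.trans ?_)
  have hS0 := (c_mem σ hσ a (nxt a)).1
  have hS1 := (c_mem σ hσ a (nxt a)).2
  have key := payoff_le_c σ hσ (fun _ => step (gm n ρ h0 h1) σ) 0 (HA a (σ (Vx.c a) (nxt a)))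
    (fun _ v w => step_nonneg _ _ hσ _ _) (fun _ _ _ => rfl)
    (by intro v; cases v <;> simp [HA]; split_ifs <;> linarith)
    (by
      intro v hv
      cases v <;> simp [HA, rw', rewardV, r0]
      split_ifs <;> linarith)
    (by
      intro _ b
      have hsum : ∑ w, step (gm n ρ h0 h1) σ (Vx.c b) w * HA a (σ (Vx.c a) (nxt a)) w =
          σ (Vx.c b) (nxt b) * HA a (σ (Vx.c a) (nxt a)) (nxt b : Vx n) := by
        refine Fintype.sum_eq_single (nxt b) ?_
        intro x hx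
        by_cases he : ∃ t i, x = Vx.s t i
        · obtain ⟨t, i, rfl⟩ := he
          simp [HA]
        · have : σ (Vx.c b) x = 0 := (hσ (Vx.c b) b.succ rfl).2.1 x (by
            change ¬ edgeV (Vx.c b) x
            simp only [edgeV, not_or]
            refine ⟨hx, ?_⟩
            rintro ⟨t, i, h, -⟩
            exact he ⟨t, i, h⟩)
          change σ (Vx.c b) x * _ = 0
          rw [this, zero_mul]
      rw [hsum]
      have hb0 := (c_mem σ hσ b (nxt b)).1
      have hb1 := (c_mem σ hσ b (nxt b)).2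
      fin_cases a <;> fin_cases b <;> simp_all [HA, nxt] <;> nlinarith)
    (by intro i; simp [HA]) (by intro i; simp [HA]) (by intro i; simp [HA])
    (by intro i; simp [HA]) (by intro i; simp [HA])
  simpa [HA, value] using key

theorem sum_c (σ : Vx n → Vx n → ℝ) (hσ : IsStationary (gm n ρ h0 h1) σ) (a : Fin 4)
    (ha : σ (Vx.c a) (nxt a) = 1) (f : Vx n → ℝ) :
    ∑ x, σ (Vx.c a) x * f x = f (nxt a) := by
  have hd := hσ (Vx.c a) a.succ rfl
  have hz : ∀ x, x ≠ nxt a → σ (Vx.c a) x = 0 := by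
    intro x hx
    have h2 : ∑ y ∈ ({nxt a, x} : Finset (Vx n)), σ (Vx.c a) y ≤ ∑ y, σ (Vx.c a) y :=
      Finset.sum_le_univ_sum_of_nonneg (fun y => hd.1 y)
    rw [Finset.sum_pair (Ne.symm hx), hd.2.2, ha] at h2
    have := hd.1 x
    linarith
  rw [Fintype.sum_eq_single (nxt a) (fun x hx => by rw [hz x hx, zero_mul]), ha, one_mul]

def HB (r : ℝ) : Vx n → ℝ
  | Vx.c _ => r
  | Vx.tE => r
  | _ => 1

theorem rw'_le_one (hρ0 : 0 ≤ ρ) (hρ1 : ρ ≤ 1) (j : Fin 5) (v : Vx n) : rw' ρ j v ≤ 1 := by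
  have := ((gm n ρ hρ0 hρ1).reward_mem v j).2
  unfold rw'
  exact_mod_cast this

theorem value_le (σ : Vx n → Vx n → ℝ) (hσ : IsStationary (gm n ρ h0 h1) σ)
    (hn : ∀ a : Fin 4, σ (Vx.c a) (nxt a) = 1) (a : Fin 4) :
    value (gm n ρ h0 h1) σ a.succ ≤ ρ := by
  have hr0 : (0 : ℝ) ≤ ρ := by exact_mod_cast h0
  have hr1 : (ρ : ℝ) ≤ 1 := by exact_mod_cast h1
  have key := payoff_le_c σ hσ (fun _ => step (gm n ρ h0 h1) σ) a.succ (HB (ρ : ℝ))
    (fun _ v w => step_nonneg _ _ hσ _ _) (fun _ _ _ => rfl)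
    (by intro v; cases v <;> simp [HB, hr0])
    (by
      intro v hv
      cases v with
      | c b => exact absurd hv (kind_c b)
      | tE => simp only [HB, rw']; fin_cases a <;> simp [rewardV, rL, rU]
      | _ => exact rw'_le_one h0 h1 _ _)
    (by
      intro _ b
      change ∑ w, σ (Vx.c b) w * _ ≤ _
      rw [sum_c σ hσ b (hn b)]
      fin_cases b <;> simp [nxt, HB])
    (by intro i; simp [HB]) (by intro i; simp [HB]) (by intro i; simp [HB]; norm_num)
    (by intro i; simp [HB]; norm_num) (by intro i; simp [HB]; norm_num)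
  simpa [HB, value] using key

/-- the deviation of the owner of `c a` to the test `s t i` -/
noncomputable def tau (t : Fin 3) (i : Fin n) (_ : Vx n) (x : Vx n) : ℝ :=
  if x = Vx.s t i then 1 else 0

theorem test_ineq (σ : Vx n → Vx n → ℝ) (hσ : IsStationary (gm n ρ h0 h1) σ) (ε : ℝ)
    (hN : IsNash (gm n ρ h0 h1) ε σ)
    (hn : ∀ a : Fin 4, σ (Vx.c a) (nxt a) = 1) (a : Fin 4) (t : Fin 3) (i : Fin n)
    (ho : own a t i) : Sv ρ h0 h1 σ a.succ t i ≤ ρ + ε := by
  have hτ : ∀ v, (gm n ρ h0 h1).kind v = Kind.player a.succ →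
      IsDist (gm n ρ h0 h1) v (tau t i v) := by
    intro v hv
    have hva : v = Vx.c a := by
      change kindV v = _ at hv
      cases v with
      | c b =>
        simp only [kindV, Kind.player.injEq] at hv
        rw [Fin.succ_injective _ hv]
      | u i =>
        simp only [kindV] at hv
        split_ifs at hv
        exact absurd (Kind.player.inj hv).symm (Fin.succ_ne_zero a)
      | w i =>
        simp only [kindV] at hv
        split_ifs at hv
        exact absurd (Kind.player.inj hv).symm (Fin.succ_ne_zero a)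
      | _ => simp [kindV] at hv
    subst hva
    refine ⟨fun w => ?_, fun w hw => ?_, ?_⟩
    · unfold tau; split_ifs <;> norm_num
    · unfold tau
      rw [if_neg]
      rintro rfl
      exact hw (Or.inr ⟨t, i, rfl, ho⟩)
    · unfold tau; simp
  have h1' := nash_stat (gm n ρ h0 h1) ε σ hσ hN a.succ (tau t i) hτ (3 + a.val + 1)
  have h2' := value_le σ hσ hn a
  have hQs : ∀ v, (∀ b, v ≠ Vx.c b) →
      dev (gm n ρ h0 h1) σ a.succ (tau t i) v = step (gm n ρ h0 h1) σ v := by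
    intro v hv
    funext w
    unfold dev stepDev step
    cases hk : (gm n ρ h0 h1).kind v with
    | player j =>
      have hj : j ≠ a.succ := by
        change kindV v = _ at hk
        cases v with
        | c b => exact absurd rfl (hv b)
        | u i =>
          simp only [kindV] at hk
          split_ifs at hk
          rw [← Kind.player.inj hk]
          exact (Fin.succ_ne_zero a).symm
        | w i =>
          simp only [kindV] at hk
          split_ifs at hk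
          rw [← Kind.player.inj hk]
          exact (Fin.succ_ne_zero a).symm
        | _ => simp [kindV] at hk
      simp [hj]
    | stoch => rfl
    | term => rfl
  have hQa : ∀ f : Vx n → ℝ, ∑ x, dev (gm n ρ h0 h1) σ a.succ (tau t i) (Vx.c a) x * f x =
      f (Vx.s t i) := by
    intro f
    have : ∀ x, dev (gm n ρ h0 h1) σ a.succ (tau t i) (Vx.c a) x = tau t i (Vx.c a) x := by
      intro x
      change (if a.succ = a.succ then _ else _) = _
      simp
    simp only [this]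
    simp [tau]
  have hQb : ∀ b : Fin 4, b ≠ a → ∀ f : Vx n → ℝ,
      ∑ x, dev (gm n ρ h0 h1) σ a.succ (tau t i) (Vx.c b) x * f x = f (nxt b) := by
    intro b hb f
    have : ∀ x, dev (gm n ρ h0 h1) σ a.succ (tau t i) (Vx.c b) x = σ (Vx.c b) x := by
      intro x
      change (if b.succ = a.succ then _ else _) = _
      rw [if_neg (fun h => hb (Fin.succ_injective _ h))]
    simp only [this]
    exact sum_c σ hσ b (hn b) f
  have hcol : col (gm n ρ h0 h1) (dev (gm n ρ h0 h1) σ a.succ (tau t i)) a.succ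
      (3 + a.val + 1) (Vx.c 0) = Sv ρ h0 h1 σ a.succ t i := by
    have hs : ∀ k, col (gm n ρ h0 h1) (dev (gm n ρ h0 h1) σ a.succ (tau t i)) a.succ
        (k + 3) (Vx.s t i) = Sv ρ h0 h1 σ a.succ t i :=
      fun k => col_s σ hσ _ hQs a.succ k t i
    have hsa : ∀ k, col (gm n ρ h0 h1) (dev (gm n ρ h0 h1) σ a.succ (tau t i)) a.succ
        (k + 3 + 1) (Vx.c a) = Sv ρ h0 h1 σ a.succ t i := by
      intro k
      rw [col_succ _ _ _ _ _ (kind_c a), hQa, hs]
    have hsb : ∀ b : Fin 4, b ≠ a → ∀ k, col (gm n ρ h0 h1)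
        (dev (gm n ρ h0 h1) σ a.succ (tau t i)) a.succ (k + 1) (Vx.c b) =
        col (gm n ρ h0 h1) (dev (gm n ρ h0 h1) σ a.succ (tau t i)) a.succ k (nxt b) := by
      intro b hb k
      rw [col_succ _ _ _ _ _ (kind_c b), hQb b hb]
    clear hQa hQb hQs h1' h2'
    fin_cases a
    · exact hsa 0
    · exact (hsb 0 (by decide) 4).trans (hsa 0)
    · exact (hsb 0 (by decide) 5).trans ((hsb 1 (by decide) 4).trans (hsa 0))
    · exact (hsb 0 (by decide) 6).trans ((hsb 1 (by decide) 5).trans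
        ((hsb 2 (by decide) 4).trans (hsa 0)))
  change col _ _ _ _ (Vx.c 0) ≤ _ at h1'
  rw [hcol] at h1'
  linarith

end Q231.SG
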