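import Pool.Agent.Q231.SG.Exist

namespace Q231.SG

open Finset Filter Topology

theorem poly_bound (p : Polynomial ℕ) : ∃ A d : ℕ, ∀ x, p.eval x ≤ A * (x + 1) ^ d := by
  induction p using Polynomial.induction_on' with
  | add p q hp hq =>
    obtain ⟨A, d, h⟩ := hp
    obtain ⟨B, e, h'⟩ := hq
    refine ⟨A + B, d + e, fun x => ?_⟩
    rw [Polynomial.eval_add]
    have h1 : (x + 1) ^ d ≤ (x + 1) ^ (d + e) := Nat.pow_le_pow_right (by omega) (by omega)
    have h2 : (x + 1) ^ e ≤ (x + 1) ^ (d + e) := Nat.pow_le_pow_right (by omega) (by omega)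
    calc p.eval x + q.eval x ≤ A * (x + 1) ^ d + B * (x + 1) ^ e := add_le_add (h x) (h' x)
      _ ≤ A * (x + 1) ^ (d + e) + B * (x + 1) ^ (d + e) :=
        add_le_add (Nat.mul_le_mul_left _ h1) (Nat.mul_le_mul_left _ h2)
      _ = (A + B) * (x + 1) ^ (d + e) := by ring
  | monomial n a =>
    refine ⟨a, n, fun x => ?_⟩
    rw [Polynomial.eval_monomial]
    exact Nat.mul_le_mul_left _ (Nat.pow_le_pow_left (by omega) _)

theorem growth (p : Polynomial ℕ) (C : ℕ) : ∃ N : ℕ, ∀ s ≤ C * (N + 6) ^ 2,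
    p.eval s + 1 < 2 ^ (N + 1) := by
  obtain ⟨A, d, h⟩ := poly_bound p
  set B : ℕ := A * (C + 1) ^ d + 1
  have ht := tendsto_pow_const_div_const_pow_of_one_lt (2 * d) (r := (2 : ℝ)) (by norm_num)
  have hev := ht.eventually (gt_mem_nhds (show (0 : ℝ) < 1 / (32 * B) by positivity))
  obtain ⟨M, hM, hM6⟩ := (hev.and (eventually_ge_atTop 6)).exists
  obtain ⟨N, rfl⟩ : ∃ N, M = N + 6 := ⟨M - 6, by omega⟩
  refine ⟨N, fun s hs => ?_⟩
  have h1 : p.eval s ≤ A * (C + 1) ^ d * (N + 6) ^ (2 * d) := by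
    refine (h s).trans ?_
    have : s + 1 ≤ (C + 1) * (N + 6) ^ 2 := by
      have : 1 ≤ (N + 6) ^ 2 := Nat.one_le_pow _ _ (by omega)
      nlinarith
    calc A * (s + 1) ^ d ≤ A * ((C + 1) * (N + 6) ^ 2) ^ d :=
          Nat.mul_le_mul_left _ (Nat.pow_le_pow_left this _)
      _ = A * (C + 1) ^ d * (N + 6) ^ (2 * d) := by rw [mul_pow, ← pow_mul]; ring
  have h2 : p.eval s + 1 ≤ B * (N + 6) ^ (2 * d) := by
    have : 1 ≤ (N + 6) ^ (2 * d) := Nat.one_le_pow _ _ (by omega)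
    calc p.eval s + 1 ≤ A * (C + 1) ^ d * (N + 6) ^ (2 * d) + (N + 6) ^ (2 * d) :=
          add_le_add h1 this
      _ = B * (N + 6) ^ (2 * d) := by simp only [B]; ring
  have hB : (0 : ℝ) < B := by simp only [B]; positivity
  have h3 : (B : ℝ) * ((N + 6 : ℕ) : ℝ) ^ (2 * d) < 2 ^ (N + 1) := by
    rw [div_lt_div_iff₀ (by positivity) (by positivity)] at hM
    have : (2 : ℝ) ^ (N + 6) = 32 * 2 ^ (N + 1) := by
      rw [show N + 6 = (N + 1) + 5 by ring, pow_add]; norm_num; ring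
    rw [this] at hM
    nlinarith
  have h4 : B * (N + 6) ^ (2 * d) < 2 ^ (N + 1) := by exact_mod_cast h3
  omega

def code {n : ℕ} : Vx n → ℕ × ℕ
  | Vx.c a => (0, a.val)
  | Vx.s t i => (t.val + 1, i.val)
  | Vx.u i => (4, i.val)
  | Vx.w i => (5, i.val)
  | Vx.tN i => (6, i.val)
  | Vx.tZ i => (7, i.val)
  | Vx.tY i => (8, i.val)
  | Vx.tD => (9, 0)
  | Vx.tE => (10, 0)

theorem code_inj {n : ℕ} : Function.Injective (code (n := n)) := by
  intro x y h
  cases x <;> cases y <;> simp only [code, Prod.mk.injEq] at h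
  all_goals first
    | rfl
    | (exfalso; omega)
    | (obtain ⟨h1, h2⟩ := h; rw [Fin.ext h2, Fin.ext (Nat.succ_injective h1)])
    | (obtain ⟨h1, h2⟩ := h; rw [Fin.ext h2])

theorem card_Vx (n : ℕ) : Fintype.card (Vx n) ≤ 12 * (n + 4) := by
  have h := Finset.card_le_card_of_injOn (s := (Finset.univ : Finset (Vx n)))
    (t := Finset.range 12 ×ˢ Finset.range (n + 4)) code (by
      intro v _
      simp only [Finset.coe_product, Finset.coe_range, Set.mem_prod, Set.mem_Iio]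
      cases v <;> simp only [code] <;> constructor <;> omega) (code_inj.injOn)
  rw [Finset.card_product, Finset.card_range, Finset.card_range] at h
  exact h

theorem bits_prob {n : ℕ} (v x : Vx n) : bits (probV v x) ≤ 8 := by
  cases v with
  | s t i =>
    fin_cases t <;> simp only [probV] <;> split_ifs <;> decide +kernel
  | u i => simp only [probV]; split_ifs <;> decide +kernel
  | w i => simp only [probV]; split_ifs <;> decide +kernel
  | _ => exact (by decide +kernel : bits 0 ≤ 8)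

theorem bits_rL {n : ℕ} (ρ : ℚ) (c : ℕ) (v : Vx n) : bits (rL ρ c v) ≤ 8 + bits ρ := by
  have h : bits (rL ρ c v) ≤ 8 ∨ rL ρ c v = ρ := by
    cases v with
    | tE => exact Or.inr rfl
    | _ => left; simp only [rL]; (try split_ifs) <;> decide +kernel
  rcases h with h | h
  · omega
  · rw [h]; omega

theorem bits_rU {n : ℕ} (ρ : ℚ) (c : ℕ) (v : Vx n) : bits (rU ρ c v) ≤ 8 + bits ρ := by
  have h : bits (rU ρ c v) ≤ 8 ∨ rU ρ c v = ρ := by
    cases v with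
    | tE => exact Or.inr rfl
    | _ => left; simp only [rU]; (try split_ifs) <;> decide +kernel
  rcases h with h | h
  · omega
  · rw [h]; omega

theorem bits_reward {n : ℕ} (ρ : ℚ) (v : Vx n) (j : Fin 5) : bits (rewardV ρ v j) ≤ 8 + bits ρ := by
  fin_cases j
  · have : bits (r0 v) ≤ 8 := by
      cases v with
      | tE => exact (by decide +kernel : bits 1 ≤ 8)
      | _ => exact (by decide +kernel : bits 0 ≤ 8)
    change bits (r0 v) ≤ _
    omega
  · exact bits_rL ρ 0 v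
  · exact bits_rL ρ 1 v
  · exact bits_rU ρ 0 v
  · exact bits_rU ρ 1 v

theorem size_le (n : ℕ) (ρ : ℚ) (h0 : 0 ≤ ρ) (h1 : ρ ≤ 1) (ε : ℚ) :
    inputSize (gm n ρ h0 h1) xs ys ε ≤ (9 + 5 * (8 + bits ρ) + 40 + bits ε + 1 + 5) *
      (12 * (n + 4)) ^ 2 := by
  set m := Fintype.card (Vx n)
  have hm : m ≤ 12 * (n + 4) := card_Vx n
  have hs1 : ∑ v : Vx n, ∑ w : Vx n, (1 + bits (probV v w)) ≤ 9 * m ^ 2 := by
    calc ∑ v : Vx n, ∑ w : Vx n, (1 + bits (probV v w)) ≤ ∑ v : Vx n, ∑ w : Vx n, 9 :=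
          Finset.sum_le_sum fun v _ => Finset.sum_le_sum fun w _ => by
            have := bits_prob v w; omega
      _ = 9 * m ^ 2 := by simp [m]; ring
  have hs2 : ∑ v : Vx n, ∑ i : Fin 5, bits (rewardV ρ v i) ≤ 5 * (8 + bits ρ) * m := by
    calc ∑ v : Vx n, ∑ i : Fin 5, bits (rewardV ρ v i) ≤ ∑ v : Vx n, ∑ i : Fin 5, (8 + bits ρ) :=
          Finset.sum_le_sum fun v _ => Finset.sum_le_sum fun i _ => bits_reward ρ v i
      _ = 5 * (8 + bits ρ) * m := by simp [m]; ring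
  have hs3 : ∑ i : Fin 5, (bits (xs i) + bits (ys i)) ≤ 40 := by decide +kernel
  have hm1 : 1 ≤ 12 * (n + 4) := by omega
  have hm2 : 1 ≤ (12 * (n + 4)) ^ 2 := Nat.one_le_pow _ _ hm1
  have hmm : m ≤ (12 * (n + 4)) ^ 2 := by nlinarith
  have hm3 : m ^ 2 ≤ (12 * (n + 4)) ^ 2 := Nat.pow_le_pow_left hm 2
  unfold inputSize
  change (∑ v : Vx n, ∑ w : Vx n, (1 + bits (probV v w))) +
    (∑ v : Vx n, ∑ i : Fin 5, bits (rewardV ρ v i)) +
    (∑ i : Fin 5, (bits (xs i) + bits (ys i))) + bits ε + m + 5 ≤ _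
  set X := (12 * (n + 4)) ^ 2
  have e1 : 9 * m ^ 2 ≤ 9 * X := by omega
  have e2 : 5 * (8 + bits ρ) * m ≤ 5 * (8 + bits ρ) * X := Nat.mul_le_mul_left _ hmm
  have e3 : bits ε ≤ bits ε * X := Nat.le_mul_of_pos_right _ (by omega)
  calc _ ≤ 9 * X + 5 * (8 + bits ρ) * X + 40 * X + bits ε * X + X + 5 * X := by omega
    _ = _ := by ring

def Kc (ρ ε : ℚ) : ℕ := 9 + 5 * (8 + bits ρ) + 40 + bits ε + 1 + 5

theorem size_le' (N : ℕ) (ρ : ℚ) (h0 : 0 ≤ ρ) (h1 : ρ ≤ 1) (ε : ℚ) :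
    inputSize (gm (N + 1) ρ h0 h1) xs ys ε ≤ (Kc ρ ε * 144) * (N + 6) ^ 2 := by
  have h := size_le (N + 1) ρ h0 h1 ε
  change _ ≤ Kc ρ ε * _ at h
  refine h.trans ?_
  generalize Kc ρ ε = K
  have h2 : (12 * (N + 1 + 4)) ^ 2 ≤ 144 * (N + 6) ^ 2 := by
    have h3 : 12 * (N + 1 + 4) ≤ 12 * (N + 6) := by omega
    calc (12 * (N + 1 + 4)) ^ 2 ≤ (12 * (N + 6)) ^ 2 := Nat.pow_le_pow_left h3 2
      _ = 144 * (N + 6) ^ 2 := by rw [mul_pow]; norm_num
  calc K * (12 * (N + 1 + 4)) ^ 2 ≤ K * (144 * (N + 6) ^ 2) := Nat.mul_le_mul_left _ h2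
    _ = K * 144 * (N + 6) ^ 2 := by ring

end Q231.SG
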