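import Pool.Agent.Q231.SG.Lower

namespace Q231.SG

open Finset

variable {n : ℕ} {ρ : ℚ} {h0 : 0 ≤ ρ} {h1 : ρ ≤ 1}

theorem rec_ineq (σ : Vx n → Vx n → ℝ) (hσ : IsStationary (gm n ρ h0 h1) σ) (ε : ℝ)
    (hN : IsNash (gm n ρ h0 h1) ε σ) (hε : (ρ : ℝ) + ε ≤ 1 / 2)
    (hn : ∀ a : Fin 4, σ (Vx.c a) (nxt a) = 1) (i : Fin n) :
    pp ρ h0 h1 σ i.castSucc * qq ρ h0 h1 σ i.castSucc / 2 ≤
      pp ρ h0 h1 σ i.succ * (1 + qq ρ h0 h1 σ i.succ) ∧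
    pp ρ h0 h1 σ i.castSucc * qq ρ h0 h1 σ i.castSucc / 2 ≤ qq ρ h0 h1 σ i.succ ∧
    pp ρ h0 h1 σ i.succ * (1 + qq ρ h0 h1 σ i.succ) + qq ρ h0 h1 σ i.succ ≤
      2 * (pp ρ h0 h1 σ i.castSucc * qq ρ h0 h1 σ i.castSucc) := by
  rcases Nat.mod_two_eq_zero_or_one i.val with h | h
  · have h' : (i.val + 1) % 2 = 1 := by omega
    have t0 := test_ineq σ hσ ε hN hn 0 0 i (Or.inl ⟨by simp [h], by decide⟩)
    have t1 := test_ineq σ hσ ε hN hn 0 1 i (Or.inl ⟨by simp [h], by decide⟩)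
    have t2 := test_ineq σ hσ ε hN hn 2 2 i (Or.inr ⟨by simp [h], rfl⟩)
    have e1 : (0 : Fin 4).succ = (1 : Fin 5) := rfl
    have e3 : (2 : Fin 4).succ = (3 : Fin 5) := rfl
    rw [e1] at t0 t1
    rw [e3] at t2
    simp only [Sv, Uv, Wv, rw', rewardV, rL, rU, Fin.val_castSucc, Fin.val_succ, h, h'] at t0 t1 t2
    norm_num at t0 t1 t2
    refine ⟨?_, ?_, ?_⟩ <;> nlinarith
  · have h' : (i.val + 1) % 2 = 0 := by omega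
    have t0 := test_ineq σ hσ ε hN hn 1 0 i (Or.inl ⟨by simp [h], by decide⟩)
    have t1 := test_ineq σ hσ ε hN hn 1 1 i (Or.inl ⟨by simp [h], by decide⟩)
    have t2 := test_ineq σ hσ ε hN hn 3 2 i (Or.inr ⟨by simp [h], rfl⟩)
    have e1 : (1 : Fin 4).succ = (2 : Fin 5) := rfl
    have e3 : (3 : Fin 4).succ = (4 : Fin 5) := rfl
    rw [e1] at t0 t1
    rw [e3] at t2
    simp only [Sv, Uv, Wv, rw', rewardV, rL, rU, Fin.val_castSucc, Fin.val_succ, h, h'] at t0 t1 t2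
    norm_num at t0 t1 t2
    refine ⟨?_, ?_, ?_⟩ <;> nlinarith

theorem pp_zero (σ : Vx n → Vx n → ℝ) : pp ρ h0 h1 σ 0 = 1 / 2 := by
  change ((probV (Vx.u 0) (Vx.w 0) : ℚ) : ℝ) = _
  simp [probV]

theorem qq_zero (σ : Vx n → Vx n → ℝ) : qq ρ h0 h1 σ 0 = 1 / 2 := by
  change ((probV (Vx.w 0) (Vx.tY 0) : ℚ) : ℝ) = _
  simp [probV]

theorem small (σ : Vx n → Vx n → ℝ) (hσ : IsStationary (gm n ρ h0 h1) σ) (ε : ℝ)
    (hN : IsNash (gm n ρ h0 h1) ε σ) (hε : (ρ : ℝ) + ε ≤ 1 / 2)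
    (hn : ∀ a : Fin 4, σ (Vx.c a) (nxt a) = 1) :
    ∀ k (hk : k < n + 1), 0 < pp ρ h0 h1 σ ⟨k, hk⟩ ∧ 0 < qq ρ h0 h1 σ ⟨k, hk⟩ ∧
      pp ρ h0 h1 σ ⟨k, hk⟩ * qq ρ h0 h1 σ ⟨k, hk⟩ ≤ (1 / 4 : ℝ) ^ (2 ^ k) := by
  intro k
  induction k with
  | zero =>
    intro hk
    rw [show (⟨0, hk⟩ : Fin (n + 1)) = 0 from rfl, pp_zero, qq_zero]
    norm_num
  | succ k ih =>
    intro hk
    obtain ⟨ip, iq, im⟩ := ih (by omega)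
    obtain ⟨r1, r2, r3⟩ := rec_ineq σ hσ ε hN hε hn ⟨k, by omega⟩
    have e1 : (⟨k, by omega⟩ : Fin n).castSucc = (⟨k, by omega⟩ : Fin (n + 1)) := rfl
    have e2 : (⟨k, by omega⟩ : Fin n).succ = (⟨k + 1, hk⟩ : Fin (n + 1)) := rfl
    rw [e1, e2] at r1 r2 r3
    have hp1 := pp_mem σ hσ ⟨k + 1, hk⟩
    have hq1 := qq_mem σ hσ ⟨k + 1, hk⟩
    set p := pp ρ h0 h1 σ ⟨k, by omega⟩
    set q := qq ρ h0 h1 σ ⟨k, by omega⟩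
    set p' := pp ρ h0 h1 σ ⟨k + 1, hk⟩
    set q' := qq ρ h0 h1 σ ⟨k + 1, hk⟩
    have hm : 0 < p * q := mul_pos ip iq
    have hq' : 0 < q' := by linarith
    have hp' : 0 < p' := by
      rcases hp1.1.lt_or_eq with h | h
      · exact h
      · rw [← h] at r1; linarith
    refine ⟨hp', hq', ?_⟩
    have h3 : p' + q' ≤ 2 * (p * q) := by nlinarith
    have h4 : p' * q' ≤ (p * q) ^ 2 := by nlinarith [sq_nonneg (p' - q')]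
    calc p' * q' ≤ (p * q) ^ 2 := h4
      _ ≤ ((1 / 4 : ℝ) ^ (2 ^ k)) ^ 2 := by gcongr
      _ = (1 / 4 : ℝ) ^ (2 ^ (k + 1)) := by rw [← pow_mul, pow_succ]

theorem lower_bound (N : ℕ) {ρ : ℚ} {h0 : 0 ≤ ρ} {h1 : ρ ≤ 1}
    (σ : Vx (N + 1) → Vx (N + 1) → ℝ) (hσ : IsStationary (gm (N + 1) ρ h0 h1) σ) (ε : ℝ)
    (hN : IsNash (gm (N + 1) ρ h0 h1) ε σ) (hε : (ρ : ℝ) + ε ≤ 1 / 2)
    (hv : 1 ≤ value (gm (N + 1) ρ h0 h1) σ 0) (L : ℕ)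
    (hL : FixedPoint (gm (N + 1) ρ h0 h1) L σ) : 2 ^ (N + 1) ≤ L + 1 := by
  have hn := nxt_prob σ hσ hv
  obtain ⟨ip, iq, im⟩ := small σ hσ ε hN hε hn N (by omega)
  obtain ⟨ip', iq', -⟩ := small σ hσ ε hN hε hn (N + 1) (by omega)
  obtain ⟨r1, r2, r3⟩ := rec_ineq σ hσ ε hN hε hn ⟨N, by omega⟩
  have e1 : (⟨N, by omega⟩ : Fin (N + 1)).castSucc = (⟨N, by omega⟩ : Fin (N + 1 + 1)) := rfl
  have e2 : (⟨N, by omega⟩ : Fin (N + 1)).succ = (⟨N + 1, by omega⟩ : Fin (N + 1 + 1)) := rfl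
  rw [e1, e2] at r1 r2 r3
  have hk : (gm (N + 1) ρ h0 h1).kind (Vx.w ⟨N + 1, by omega⟩) = Kind.player 0 := by
    change kindV (Vx.w (⟨N + 1, by omega⟩ : Fin (N + 1 + 1))) = Kind.player 0
    simp only [kindV]
    rw [if_neg]
    intro h
    have := congrArg Fin.val h
    simp at this
  obtain ⟨z, hz⟩ := hL _ _ (Vx.tY ⟨N + 1, by omega⟩) hk
  have hqz : qq ρ h0 h1 σ ⟨N + 1, by omega⟩ = (z : ℝ) / 2 ^ L := by
    unfold qq step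
    rw [hk]
    exact hz
  have hz0 : 0 < z := by
    rw [hqz] at iq'
    have h2 : (0 : ℝ) < 2 ^ L := by positivity
    have := (div_pos_iff_of_pos_right h2).1 iq'
    exact_mod_cast this
  have hz1 : (1 : ℝ) ≤ z := by exact_mod_cast hz0
  have hup : qq ρ h0 h1 σ ⟨N + 1, by omega⟩ ≤ 2 * (1 / 4 : ℝ) ^ (2 ^ N) := by nlinarith
  have h5 : (1 : ℝ) / 2 ^ L ≤ 2 * (1 / 4 : ℝ) ^ (2 ^ N) := by
    refine le_trans ?_ hup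
    rw [hqz]
    gcongr
  have h6 : (1 / 4 : ℝ) ^ (2 ^ N) = 1 / 2 ^ (2 ^ (N + 1)) := by
    rw [show (1 / 4 : ℝ) = (1 / 2) ^ 2 by norm_num, ← pow_mul, one_div_pow, pow_succ, mul_comm]
  rw [h6] at h5
  have h7 : (2 : ℝ) ^ (2 ^ (N + 1)) ≤ 2 ^ (L + 1) := by
    have ha : (0 : ℝ) < 2 ^ L := by positivity
    have hb : (0 : ℝ) < 2 ^ (2 ^ (N + 1)) := by positivity
    rw [← mul_div_assoc, mul_one, div_le_div_iff₀ ha hb] at h5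
    have h8 : (2 : ℝ) ^ (L + 1) = 2 * 2 ^ L := by rw [pow_succ]; ring
    rw [h8]
    linarith
  exact (pow_le_pow_iff_right₀ (by norm_num : (1 : ℝ) < 2)).1 h7

end Q231.SG
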